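import Mathlib

/-!
Squarefree forms `f + s x^D + t y^D`: all but few `(s, t)`.
-/

set_option autoImplicit false

open Polynomial

namespace Pool.Agent.J4H48.SI

/-- a critical point -/
theorem crit (h : ℚ[X]) (hD : 1 ≤ h.natDegree) (t : ℚ) (hns : ¬ Squarefree (h + C t)) :
    ∃ ξ : ℂ, aeval ξ (derivative h) = 0 ∧ aeval ξ h = -(t : ℂ) := by
  unfold Squarefree at hns
  push Not at hns
  obtain ⟨x, ⟨q, hq⟩, hx⟩ := hns
  have hne : h + C t ≠ 0 := by
    intro h0
    have h1 : (h + C t).natDegree = h.natDegree := natDegree_add_C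
    rw [h0, natDegree_zero] at h1
    omega
  have hx0 : x ≠ 0 := by
    rintro rfl
    rw [zero_mul, zero_mul] at hq
    exact hne hq
  have hdeg : x.degree ≠ 0 := (degree_pos_of_ne_zero_of_nonunit hx0 hx).ne'
  obtain ⟨ξ, hξ⟩ := IsAlgClosed.exists_aeval_eq_zero ℂ x hdeg
  refine ⟨ξ, ?_, ?_⟩
  · have h1 : derivative h = derivative (x * x * q) := by
      rw [← hq, derivative_add, derivative_C, add_zero]
    rw [h1, derivative_mul, derivative_mul]
    simp [hξ]
  · have h1 : aeval ξ (h + C t) = aeval ξ (x * x * q) := by rw [hq]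
    rw [map_add, aeval_C, map_mul, map_mul, hξ] at h1
    simp only [mul_zero, zero_mul] at h1
    rw [eq_comm, neg_eq_iff_eq_neg]
    have h2 : (algebraMap ℚ ℂ) t = (t : ℂ) := rfl
    rw [h2] at h1
    linear_combination h1

theorem count_sqf (h : ℚ[X]) (D : ℕ) (hD : 1 ≤ D) (hh : h.natDegree = D) (V : Finset ℤ)
    (hV : ∀ t ∈ V, ¬ Squarefree (h + C (t : ℚ))) : V.card ≤ D - 1 := by
  classical
  have hch : ∀ t : ℤ, ∃ ξ : ℂ, t ∈ V → aeval ξ (derivative h) = 0 ∧ aeval ξ h = -(t : ℂ) := by
    intro t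
    by_cases ht : t ∈ V
    · obtain ⟨ξ, h1, h2⟩ := crit h (by omega) (t : ℚ) (hV t ht)
      refine ⟨ξ, fun _ => ⟨h1, ?_⟩⟩
      rw [h2]
      push_cast
      rfl
    · exact ⟨0, fun h' => absurd h' ht⟩
  choose ξ hξ using hch
  have hd0 : derivative h ≠ 0 := by
    intro h0
    have := natDegree_eq_zero_of_derivative_eq_zero h0
    omega
  have hm0 : (derivative h).map (algebraMap ℚ ℂ) ≠ 0 := (Polynomial.map_ne_zero_iff
    (algebraMap ℚ ℂ).injective).2 hd0
  have h1 : V.card ≤ ((derivative h).map (algebraMap ℚ ℂ)).roots.toFinset.card := by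
    apply Finset.card_le_card_of_injOn ξ
    · intro t ht
      rw [Finset.mem_coe, Multiset.mem_toFinset, mem_roots hm0, IsRoot, eval_map_algebraMap]
      exact (hξ t ht).1
    · intro t ht t' ht' heq
      have h2 := (hξ t ht).2
      have h3 := (hξ t' ht').2
      rw [heq, h3] at h2
      have h4 : (t' : ℂ) = t := neg_injective h2
      exact_mod_cast h4.symm
  calc V.card ≤ _ := h1
    _ ≤ Multiset.card ((derivative h).map (algebraMap ℚ ℂ)).roots := Multiset.toFinset_card_le _
    _ ≤ ((derivative h).map (algebraMap ℚ ℂ)).natDegree := card_roots' _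
    _ ≤ (derivative h).natDegree := natDegree_map_le
    _ ≤ D - 1 := by
        rw [← hh]
        exact natDegree_derivative_le h

/-- the dehomogenization `g(X, 1)` -/
noncomputable def dh (g : MvPolynomial (Fin 2) ℚ) : ℚ[X] := MvPolynomial.aeval ![X, 1] g

theorem dh_eq (g : MvPolynomial (Fin 2) ℚ) :
    dh g = ∑ m ∈ g.support, C (g.coeff m) * X ^ (m 0) := by
  unfold dh
  rw [MvPolynomial.aeval_def, MvPolynomial.eval₂_eq']
  apply Finset.sum_congr rfl
  intro m _
  rw [Fin.prod_univ_two]
  simp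

theorem dh_add (g g' : MvPolynomial (Fin 2) ℚ) : dh (g + g') = dh g + dh g' := map_add _ _ _

theorem dh_mul (g g' : MvPolynomial (Fin 2) ℚ) : dh (g * g') = dh g * dh g' := map_mul _ _ _

theorem le_deg {g : MvPolynomial (Fin 2) ℚ} {m : Fin 2 →₀ ℕ} (hm : m ∈ g.support) :
    m 0 + m 1 ≤ g.totalDegree := by
  have h1 := MvPolynomial.le_totalDegree hm
  rw [Finsupp.sum_fintype _ _ (fun _ => rfl), Fin.sum_univ_two] at h1
  exact h1

theorem dh_natDegree_le (g : MvPolynomial (Fin 2) ℚ) : (dh g).natDegree ≤ g.totalDegree := by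
  rw [dh_eq]
  apply natDegree_sum_le_of_forall_le
  intro m hm
  refine (natDegree_C_mul_X_pow_le _ _).trans ?_
  have := le_deg hm
  omega

theorem dh_coeff (g : MvPolynomial (Fin 2) ℚ) (D : ℕ) (hg : g.totalDegree ≤ D) :
    (dh g).coeff D = g.coeff (Finsupp.single 0 D) := by
  classical
  rw [dh_eq, finsetSum_coeff]
  by_cases h : Finsupp.single 0 D ∈ g.support
  · rw [Finset.sum_eq_single_of_mem _ h]
    · rw [coeff_C_mul_X_pow, Finsupp.single_eq_same, if_pos rfl]
    · intro m hm hne
      rw [coeff_C_mul_X_pow, if_neg]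
      intro h0
      apply hne
      have h1 := le_deg hm
      ext i
      fin_cases i
      · show m 0 = (Finsupp.single (0 : Fin 2) D) 0
        rw [Finsupp.single_eq_same]
        omega
      · show m 1 = (Finsupp.single (0 : Fin 2) D) 1
        rw [Finsupp.single_eq_of_ne (by decide)]
        omega
  · rw [MvPolynomial.notMem_support_iff.1 h]
    apply Finset.sum_eq_zero
    intro m hm
    rw [coeff_C_mul_X_pow, if_neg]
    intro h0
    apply h
    have h1 := le_deg hm
    have : Finsupp.single 0 D = m := by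
      ext i
      fin_cases i
      · show (Finsupp.single (0 : Fin 2) D) 0 = m 0
        rw [Finsupp.single_eq_same]
        omega
      · show (Finsupp.single (0 : Fin 2) D) 1 = m 1
        rw [Finsupp.single_eq_of_ne (by decide)]
        omega
    rw [this]
    exact hm

theorem sqf_lift (g : MvPolynomial (Fin 2) ℚ) (D : ℕ) (hg : g.totalDegree ≤ D)
    (hd : (dh g).natDegree = D) (hD : 1 ≤ D) (hs : Squarefree (dh g)) : Squarefree g := by
  intro p hp
  obtain ⟨q, hq⟩ := hp
  have hg0 : g ≠ 0 := by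
    rintro rfl
    have : dh 0 = 0 := map_zero _
    rw [this, natDegree_zero] at hd
    omega
  have hp0 : p ≠ 0 := by
    rintro rfl
    rw [zero_mul, zero_mul] at hq
    exact hg0 hq
  have hq0 : q ≠ 0 := by
    rintro rfl
    rw [mul_zero] at hq
    exact hg0 hq
  have hdg : dh g = dh p * dh p * dh q := by rw [hq, dh_mul, dh_mul]
  have hu : IsUnit (dh p) := hs (dh p) ⟨dh q, hdg⟩
  have hpd : (dh p).natDegree = 0 := natDegree_eq_zero_of_isUnit hu
  have h1 : (dh g).natDegree ≤ (dh q).natDegree := by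
    rw [hdg]
    refine natDegree_mul_le.trans ?_
    have : (dh p * dh p).natDegree ≤ 0 := natDegree_mul_le.trans (by omega)
    omega
  have h2 : g.totalDegree = p.totalDegree + p.totalDegree + q.totalDegree := by
    rw [hq, MvPolynomial.totalDegree_mul_of_isDomain (mul_ne_zero hp0 hp0) hq0,
      MvPolynomial.totalDegree_mul_of_isDomain hp0 hp0]
  have h3 := dh_natDegree_le q
  have h4 : p.totalDegree = 0 := by omega
  rw [MvPolynomial.totalDegree_eq_zero_iff_eq_C] at h4
  rw [h4]
  have h5 : MvPolynomial.coeff 0 p ≠ 0 := by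
    intro h6
    rw [h6, map_zero] at h4
    exact hp0 h4
  exact (isUnit_iff_ne_zero.2 h5).map (MvPolynomial.C (σ := Fin 2))

end Pool.Agent.J4H48.SI
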