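import Mathlib

/-!
The number of the values of an integer polynomial of degree `d` in an interval of length `m`.
-/

set_option autoImplicit false

open Finset

namespace Pool.Agent.J4H48.SI

theorem gap {N : ℕ} (f : Fin N → ℤ) (hf : StrictMono f) :
    ∀ (n a : ℕ) (h : a + n < N), f ⟨a, by omega⟩ + n ≤ f ⟨a + n, h⟩ := by
  intro n
  induction n with
  | zero => intro a h; simp
  | succ n ih =>
    intro a h
    have h1 := ih a (by omega)
    have h2 : f ⟨a + n, by omega⟩ < f ⟨a + (n + 1), h⟩ := hf (by simp)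
    push_cast
    omega

/-- at most `d s` arguments with values in an interval of length `m < s ^ d / (d + 1)` -/
theorem few_args (U : Polynomial ℤ) (d : ℕ) (hd : 1 ≤ d) (hU : U.natDegree = d) (c : ℤ) (m : ℕ)
    (s : ℕ) (hs : (d + 1) * m < s ^ d) (A : Finset ℤ)
    (hA : ∀ k ∈ A, c ≤ U.eval k ∧ U.eval k < c + m) : A.card ≤ d * s := by
  classical
  by_contra hcon
  push Not at hcon
  have hs1 : 1 ≤ s := by
    rcases Nat.eq_zero_or_pos s with h | h
    · subst h
      rw [zero_pow (by omega)] at hs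
      omega
    · exact h
  let f := A.orderEmbOfFin rfl
  have hlt : ∀ i ≤ d, i * s < A.card := fun i hi =>
    lt_of_le_of_lt (Nat.mul_le_mul_right s hi) hcon
  let w : ℕ → ℤ := fun i => if h : i * s < A.card then f ⟨i * s, h⟩ else 0
  have hw : ∀ i (hi : i ≤ d), w i = f ⟨i * s, hlt i hi⟩ := fun i hi => dif_pos (hlt i hi)
  have hwA : ∀ i ≤ d, w i ∈ A := by
    intro i hi
    rw [hw i hi]
    exact orderEmbOfFin_mem A rfl _
  have hgap : ∀ i j, i < j → j ≤ d → w i + s ≤ w j := by
    intro i j hij hj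
    rw [hw i (by omega), hw j hj]
    have h1 : i * s + s ≤ j * s := by
      calc i * s + s = (i + 1) * s := by ring
        _ ≤ j * s := Nat.mul_le_mul_right s hij
    have h2 := gap (fun x => f x) f.strictMono (j * s - i * s) (i * s) (by
      have := hlt j hj
      omega)
    have h3 : (⟨i * s + (j * s - i * s), by have := hlt j hj; omega⟩ : Fin A.card) =
        ⟨j * s, hlt j hj⟩ := Fin.ext (by simp only; omega)
    rw [h3] at h2
    have h4 : ((j * s - i * s : ℕ) : ℤ) ≥ s := by
      have : s ≤ j * s - i * s := by omega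
      exact_mod_cast this
    linarith
  let v : ℕ → ℝ := fun i => (w i : ℝ)
  have hvd : ∀ i ∈ range (d + 1), ∀ j ∈ range (d + 1), i ≠ j → (s : ℝ) ≤ |v i - v j| := by
    intro i hi j hj hij
    rw [mem_range] at hi hj
    rcases lt_or_gt_of_ne hij with h | h
    · have h1 := hgap i j h (by omega)
      have h2 : (v i : ℝ) + s ≤ v j := by
        show ((w i : ℤ) : ℝ) + s ≤ ((w j : ℤ) : ℝ)
        exact_mod_cast h1
      rw [abs_sub_comm]
      exact le_trans (by linarith) (le_abs_self _)
    · have h1 := hgap j i h (by omega)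
      have h2 : (v j : ℝ) + s ≤ v i := by
        show ((w j : ℤ) : ℝ) + s ≤ ((w i : ℤ) : ℝ)
        exact_mod_cast h1
      exact le_trans (by linarith) (le_abs_self _)
  have hs0 : (0 : ℝ) < s := by exact_mod_cast hs1
  have hinj : Set.InjOn v (range (d + 1)) := by
    intro i hi j hj hij
    by_contra hne
    have := hvd i hi j hj hne
    rw [hij, sub_self, abs_zero] at this
    linarith
  let P : Polynomial ℝ := U.map (Int.castRingHom ℝ) - Polynomial.C (c : ℝ)
  have hPdeg : P.degree < #(range (d + 1)) := by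
    rw [card_range]
    refine lt_of_le_of_lt (Polynomial.degree_sub_le _ _) (max_lt ?_ ?_)
    · refine lt_of_le_of_lt Polynomial.degree_map_le ?_
      refine lt_of_le_of_lt Polynomial.degree_le_natDegree ?_
      rw [hU]
      exact_mod_cast Nat.lt_succ_self d
    · refine lt_of_le_of_lt Polynomial.degree_C_le ?_
      exact_mod_cast Nat.succ_pos d
  have hsum := Lagrange.coeff_eq_sum hinj hPdeg
  rw [card_range, Nat.add_sub_cancel] at hsum
  have hco : P.coeff d = (U.leadingCoeff : ℝ) := by
    show (U.map (Int.castRingHom ℝ) - Polynomial.C (c : ℝ)).coeff d = _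
    rw [Polynomial.coeff_sub, Polynomial.coeff_map, Polynomial.coeff_C, if_neg (by omega), sub_zero,
      ← hU]
    rfl
  have hlc : (1 : ℝ) ≤ |(U.leadingCoeff : ℝ)| := by
    have h1 : U.leadingCoeff ≠ 0 := by
      intro h
      rw [Polynomial.leadingCoeff_eq_zero] at h
      rw [h, Polynomial.natDegree_zero] at hU
      omega
    have h2 : 1 ≤ |U.leadingCoeff| := Int.one_le_abs h1
    exact_mod_cast h2
  have hbound : |P.coeff d| ≤ (d + 1) * (m / s ^ d) := by
    rw [hsum]
    refine (abs_sum_le_sum_abs _ _).trans ?_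
    have hterm : ∀ i ∈ range (d + 1),
        |P.eval (v i) / ∏ j ∈ (range (d + 1)).erase i, (v i - v j)| ≤ m / s ^ d := by
      intro i hi
      have h1 : |P.eval (v i)| ≤ m := by
        have e : P.eval (v i) = ((U.eval (w i) - c : ℤ) : ℝ) := by
          show (U.map (Int.castRingHom ℝ) - Polynomial.C (c : ℝ)).eval ((w i : ℤ) : ℝ) = _
          rw [Polynomial.eval_sub, Polynomial.eval_C, Polynomial.eval_intCast_map]
          push_cast
          rfl
        have h2 := hA (w i) (hwA i (by rw [mem_range] at hi; omega))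
        rw [e, abs_le]
        constructor
        · have : (0 : ℤ) ≤ U.eval (w i) - c := by linarith
          have h3 : (0 : ℝ) ≤ ((U.eval (w i) - c : ℤ) : ℝ) := by exact_mod_cast this
          have : (0 : ℝ) ≤ m := Nat.cast_nonneg m
          linarith
        · have : U.eval (w i) - c ≤ (m : ℤ) := by linarith
          exact_mod_cast this
      have h2 : (s : ℝ) ^ d ≤ |∏ j ∈ (range (d + 1)).erase i, (v i - v j)| := by
        rw [abs_prod]
        have e : (s : ℝ) ^ d = ∏ _j ∈ (range (d + 1)).erase i, (s : ℝ) := by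
          rw [prod_const, card_erase_of_mem hi, card_range, Nat.add_sub_cancel]
        rw [e]
        apply prod_le_prod
        · intro j _
          exact hs0.le
        · intro j hj
          rw [mem_erase] at hj
          exact hvd i hi j hj.2 hj.1.symm
      rw [abs_div]
      have h3 : (0 : ℝ) < (s : ℝ) ^ d := by positivity
      exact div_le_div₀ (Nat.cast_nonneg m) h1 h3 h2
    refine (sum_le_sum hterm).trans (le_of_eq ?_)
    rw [sum_const, card_range, nsmul_eq_mul]
    push_cast
    ring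
  rw [hco] at hbound
  have h5 : (1 : ℝ) ≤ (d + 1) * (m / s ^ d) := hlc.trans hbound
  have h6 : (0 : ℝ) < (s : ℝ) ^ d := by positivity
  rw [mul_div_assoc', le_div_iff₀ h6, one_mul] at h5
  have h7 : s ^ d ≤ (d + 1) * m := by exact_mod_cast h5
  omega

/-- the number of values of a polynomial of degree `d` in an interval of length `m` -/
theorem few_values (U : Polynomial ℤ) (d : ℕ) (hd : 1 ≤ d) (hU : U.natDegree = d ∨ U.natDegree = 0)
    (c : ℤ) (m : ℕ) (hm : 1 ≤ m) (V : Finset ℤ)
    (hV : ∀ t ∈ V, (c ≤ t ∧ t < c + m) ∧ ∃ k : ℤ, U.eval k = t) :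
    (V.card : ℝ) ≤ 2 * (d + 1) ^ 2 * (m : ℝ) ^ (1 / (d : ℝ)) := by
  classical
  have hd0 : (0 : ℝ) < d := by exact_mod_cast hd
  have hm0 : (1 : ℝ) ≤ m := by exact_mod_cast hm
  have hm1 : (1 : ℝ) ≤ (m : ℝ) ^ (1 / (d : ℝ)) := Real.one_le_rpow hm0 (by positivity)
  rcases hU with hU | hU
  · obtain ⟨x, hx⟩ : ∃ x : ℝ, x = (((d : ℝ) + 1) * m) ^ (1 / (d : ℝ)) := ⟨_, rfl⟩
    have hb : (1 : ℝ) ≤ ((d : ℝ) + 1) * m := by nlinarith
    have hx1 : 1 ≤ x := by rw [hx]; exact Real.one_le_rpow hb (by positivity)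
    have hxd : x ^ d = ((d : ℝ) + 1) * m := by
      rw [hx, ← Real.rpow_natCast, ← Real.rpow_mul (by positivity), one_div_mul_cancel hd0.ne',
        Real.rpow_one]
    have hxm : x ≤ (d + 1) * (m : ℝ) ^ (1 / (d : ℝ)) := by
      rw [hx, Real.mul_rpow (by positivity) (by positivity)]
      apply mul_le_mul_of_nonneg_right _ (by positivity)
      calc ((d : ℝ) + 1) ^ (1 / (d : ℝ)) ≤ ((d : ℝ) + 1) ^ (1 : ℝ) := by
            apply Real.rpow_le_rpow_of_exponent_le (by linarith)
            rw [div_le_one hd0]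
            exact_mod_cast hd
        _ = d + 1 := Real.rpow_one _
    obtain ⟨s, hs⟩ : ∃ s : ℕ, s = ⌊x⌋₊ + 1 := ⟨_, rfl⟩
    have hs1 : x < s := by
      rw [hs]
      push_cast
      exact Nat.lt_floor_add_one x
    have hs2 : (s : ℝ) ≤ 2 * x := by
      rw [hs]
      push_cast
      have := Nat.floor_le (by linarith : 0 ≤ x)
      linarith
    have hsd : (d + 1) * m < s ^ d := by
      have h1 : x ^ d < (s : ℝ) ^ d := pow_lt_pow_left₀ hs1 (by linarith) (by omega)
      rw [hxd] at h1
      exact_mod_cast h1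
    have hch : ∀ t ∈ V, ∃ k : ℤ, U.eval k = t := fun t ht => (hV t ht).2
    choose! κ hκ using hch
    have h1 := few_args U d hd hU c m s hsd (V.image κ) (by
      intro k hk
      obtain ⟨t, ht, rfl⟩ := mem_image.1 hk
      rw [hκ t ht]
      exact (hV t ht).1)
    rw [card_image_of_injOn] at h1
    · have h2 : (V.card : ℝ) ≤ d * s := by exact_mod_cast h1
      calc (V.card : ℝ) ≤ d * s := h2
        _ ≤ (d + 1) * (2 * ((d + 1) * (m : ℝ) ^ (1 / (d : ℝ)))) := by
            apply mul_le_mul _ _ (by positivity) (by positivity)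
            · linarith
            · linarith
        _ = _ := by ring
    · intro t ht t' ht' h
      have ht2 : t ∈ V := ht
      have ht3 : t' ∈ V := ht'
      rw [← hκ t ht2, ← hκ t' ht3, h]
  · have h1 : V.card ≤ 1 := by
      rw [card_le_one]
      intro t ht t' ht'
      obtain ⟨-, k, hk⟩ := hV t ht
      obtain ⟨-, k', hk'⟩ := hV t' ht'
      rw [Polynomial.eq_C_of_natDegree_eq_zero hU, Polynomial.eval_C] at hk hk'
      rw [← hk, ← hk']
    have h2 : (V.card : ℝ) ≤ 1 := by exact_mod_cast h1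
    have h3 : (1 : ℝ) ≤ 2 * (d + 1) ^ 2 := by nlinarith
    calc (V.card : ℝ) ≤ 1 * 1 := by linarith
      _ ≤ 2 * (d + 1) ^ 2 * (m : ℝ) ^ (1 / (d : ℝ)) := mul_le_mul h3 hm1 (by norm_num) (by positivity)

end Pool.Agent.J4H48.SI
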